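import Pool.Agent.Tuan.Fam

/-!
Finite simple groups with squarefull order are rare: in the list of the classification there are
at most `C * X ^ (1/15) * log X` entries of order at most `X` with squarefull order.
-/

namespace Pool.Agent.Results.MP_f4f7a3_al.CountingBound

open Tuan

theorem result : ∃ C : ℝ, 0 < C ∧ ∀ X : ℕ, 2 ≤ X →
    {s : Name | Valid s ∧ order s ≤ X ∧ SqFull (order s)}.Finite ∧
    ({s : Name | Valid s ∧ order s ≤ X ∧ SqFull (order s)}.ncard : ℝ) ≤
      C * ((X : ℝ) ^ ((1 : ℝ) / 15) * Real.log X) :=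
  small_star

end Pool.Agent.Results.MP_f4f7a3_al.CountingBound
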