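import Pool.Agent.U319.Inst

/-!
# MP_f4f7a3_al (Tuan's problem): a simple group of squarefull order which is not a square

The group `SU_3(19) = PSU_3(19)` over the field with `361` elements is simple of order
`16938986400 = 2^5 * 3^2 * 5^2 * 7^3 * 19^3`: no prime divides the order exactly once, and the
order is not a perfect square, so the group is not one of the groups `S_4(p)` of the problem file.
-/

namespace Pool.Agent.Results.MP_f4f7a3_al.NonSquareExample

open Pool.Agent.U319

/-- There is a finite simple group of order `2^5 * 3^2 * 5^2 * 7^3 * 19^3` (the group `SU_3(19)`); no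
prime divides its order exactly once, and its order is not a square. -/
theorem result :
    ∃ (G : Type) (_ : Group G), IsSimpleGroup G ∧ Finite G ∧
      (∀ r : ℕ, r.Prime → r ∣ Nat.card G → r ^ 2 ∣ Nat.card G) ∧
      Nat.card G = 2 ^ 5 * 3 ^ 2 * 5 ^ 2 * 7 ^ 3 * 19 ^ 3 ∧ ¬ IsSquare (Nat.card G) := by
  have hc := card_SU319
  refine ⟨SU319, inferInstance, isSimple_SU319,
    Nat.finite_of_card_ne_zero (by rw [hc]; norm_num), ?_, hc, ?_⟩
  · rw [hc]
    intro r hr hd
    have h1 : r ∣ 2 ∨ r ∣ 3 ∨ r ∣ 5 ∨ r ∣ 7 ∨ r ∣ 19 := by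
      rcases hr.dvd_mul.1 hd with hd | hd
      · rcases hr.dvd_mul.1 hd with hd | hd
        · rcases hr.dvd_mul.1 hd with hd | hd
          · rcases hr.dvd_mul.1 hd with hd | hd
            · exact Or.inl (hr.dvd_of_dvd_pow hd)
            · exact Or.inr (Or.inl (hr.dvd_of_dvd_pow hd))
          · exact Or.inr (Or.inr (Or.inl (hr.dvd_of_dvd_pow hd)))
        · exact Or.inr (Or.inr (Or.inr (Or.inl (hr.dvd_of_dvd_pow hd))))
      · exact Or.inr (Or.inr (Or.inr (Or.inr (hr.dvd_of_dvd_pow hd))))
    rcases h1 with h | h | h | h | h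
    · rw [(Nat.prime_dvd_prime_iff_eq hr (by norm_num)).1 h]; norm_num
    · rw [(Nat.prime_dvd_prime_iff_eq hr (by norm_num)).1 h]; norm_num
    · rw [(Nat.prime_dvd_prime_iff_eq hr (by norm_num)).1 h]; norm_num
    · rw [(Nat.prime_dvd_prime_iff_eq hr (by norm_num)).1 h]; norm_num
    · rw [(Nat.prime_dvd_prime_iff_eq hr (by norm_num)).1 h]; norm_num
  · rw [hc]
    rintro ⟨x, hx⟩
    have h1 : x < 130150 := by
      by_contra hcon
      have : 130150 ≤ x := not_lt.1 hcon
      have : 130150 * 130150 ≤ x * x := Nat.mul_le_mul this this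
      omega
    have h2 : 130149 < x := by
      by_contra hcon
      have : x ≤ 130149 := not_lt.1 hcon
      have : x * x ≤ 130149 * 130149 := Nat.mul_le_mul this this
      omega
    omega

end Pool.Agent.Results.MP_f4f7a3_al.NonSquareExample
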