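import Pool.Agent.Tuan.S4

/-!
The groups `PSp_4(q)` with squarefull order: besides the groups of perfect square order (Chen), `q`
must be the least solution of a negative Pell equation `x^2 + 1 = d b w^2` with `b ∣ w`.
-/

namespace Pool.Agent.Results.MP_f4f7a3_al.SymplecticFour

open TuanS4

theorem result (q : ℕ) (hq : IsPrimePow q) :
    SqFull (ordS4 q) ↔ IsSquare (ordS4 q) ∨
      ∃ b z : ℕ, 1 < b ∧ Squarefree b ∧ b ∣ z ∧ q ^ 2 + 1 = Nat.gcd 2 (q - 1) * b * z ^ 2 ∧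
        ∀ x w : ℕ, 1 ≤ x → x ^ 2 + 1 = Nat.gcd 2 (q - 1) * b * w ^ 2 → q ≤ x :=
  criterion q hq

end Pool.Agent.Results.MP_f4f7a3_al.SymplecticFour
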