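import Pool.Agent.Tuan.WFin

/-!
A complete criterion for the finite simple groups of squarefull order in terms of Wieferich primes,
and the resulting dichotomy.
-/

namespace Pool.Agent.Results.MP_f4f7a3_al.WieferichCriterion

open Tuan

theorem result :
    (∀ s : Name, Valid s → (SqFull (order s) ↔
      IsLie s ∧ (∀ q, s = Name.L 2 q → ¬ q.Prime) ∧
        ∀ r : ℕ, r.Prime → ¬ r ∣ 2 * base s → Critical s r → r ^ 2 ∣ base s ^ (r - 1) - 1)) ∧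
    (∀ p : ℕ, p.Prime →
      {r : ℕ | r.Prime ∧ ¬ r ∣ p ∧ ¬ r ^ 2 ∣ p ^ (r - 1) - 1}.Infinite ∨
      ∃ M : ℕ, Odd M ∧ ∀ s : Name, Valid s → IsLie s →
        ∀ f : ℕ, base s = p ^ f → M ∣ f → 2 ≤ f → SqFull (order s)) ∧
    (∀ q : ℕ, IsPrimePow q →
      ({n : ℕ | 2 ≤ n ∧ ¬ SqFull (ordL n q)}.Infinite ↔
        {r : ℕ | r.Prime ∧ ¬ r ∣ q ∧ ¬ r ^ 2 ∣ q ^ (r - 1) - 1}.Infinite)) ∧
    (∀ (F : Type) [Field F] [Finite F] (n : ℕ), 2 ≤ n →
      Nat.card (Matrix.ProjectiveSpecialLinearGroup (Fin n) F) = ordL n (Nat.card F)) :=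
  ⟨criterion, dichotomy, fun q hq => inf_iff q hq.two_le, fun F _ _ n hn => card_PSL F n hn⟩

end Pool.Agent.Results.MP_f4f7a3_al.WieferichCriterion
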